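import Pool.Agent.helper15.XE.SpecL

/-! Row LCE: characters of large conductor. -/

set_option autoImplicit false

namespace Pool.Agent.XE

open Finset ArithmeticFunction
open Pool.Agent.EC (tri TL wt mt Adm edg mnf tI tII tyI cvl KK yN UN)
open Pool.Agent.CH (rgh eU Mo ClP ClB)
open GD (kp ks)

theorem LCE_coprime {r : ℕ → ℕ} (hr : ClP r) {m : ℕ} (hm : 0 < m) (h30 : Nat.Coprime m 30) :
    Nat.Coprime (r m) (30 * m) := by
  obtain ⟨h1, h2⟩ := hr m hm h30
  apply Nat.Coprime.mul_right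
  · have h3 : Nat.gcd (r m) 30 = Nat.gcd 1 30 := Nat.ModEq.gcd_eq h1
    unfold Nat.Coprime
    rw [h3]
    norm_num
  · rw [Nat.coprime_iff_gcd_eq_one] 
    by_contra hne
    obtain ⟨p, hp, hpd⟩ := Nat.exists_prime_and_dvd hne
    have hp1 : p ∣ r m := hpd.trans (Nat.gcd_dvd_left _ _)
    have hp2 : p ∣ m := hpd.trans (Nat.gcd_dvd_right _ _)
    have hp3 : p ∣ 6 := (Nat.dvd_add_right hp1).1 (hp2.trans h2)
    have hp4 : p ∣ 30 := hp3.trans (by norm_num)
    have hp5 : p ∣ Nat.gcd m 30 := Nat.dvd_gcd hp2 hp4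
    rw [Nat.coprime_iff_gcd_eq_one.1 h30] at hp5
    exact hp.one_lt.ne' (Nat.dvd_one.1 hp5)

theorem LCE (h1 : VID_stmt) (h2 : TYI_stmt) (h3 : TII_stmt) (h4 : Pool.Agent.EC.KKD_stmt)
    (h5 : Pool.Agent.EC.VBD_stmt) (h6 : WVB_stmt) : LCE_stmt := by
  intro A
  obtain ⟨B, C, N1, hII⟩ := h3 (A + 3)
  obtain ⟨N2, hV⟩ := h1 C
  obtain ⟨N3, hI⟩ := h2 (A + 1) (B + 1) C
  obtain ⟨N4, -, hW⟩ := h6
  obtain ⟨hv1, -, -⟩ := h5
  refine ⟨B, C, max N4 (max (max N1 N2) (max N3 (max 1 ⌈Real.exp (C + 5)⌉₊))), fun N hN0 V hAd r hr => ?_⟩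
  have hN := le_trans (le_max_right _ _) hN0
  have hWN := (hW N (le_trans (le_max_left _ _) hN0)).2 V hAd.1 hAd.2.1
  have hN1 : N1 ≤ N := le_trans (le_trans (le_max_left _ _) (le_max_left _ _)) hN
  have hN2 : N2 ≤ N := le_trans (le_trans (le_max_right _ _) (le_max_left _ _)) hN
  have hN3 : N3 ≤ N := le_trans (le_trans (le_max_left _ _) (le_max_right _ _)) hN
  have hN4 : 1 ≤ N := le_trans (le_trans (le_trans (le_max_left _ _) (le_max_right _ _)) (le_max_right _ _)) hN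
  have hN5 : ⌈Real.exp (C + 5)⌉₊ ≤ N :=
    le_trans (le_trans (le_trans (le_max_right _ _) (le_max_right _ _)) (le_max_right _ _)) hN
  replace hN0 : (0 : ℝ) < N := by exact_mod_cast hN4
  have hLC : (C : ℝ) + 5 ≤ Real.log N := by
    rw [Real.le_log_iff_exp_le hN0]
    exact (Nat.le_ceil _).trans (by exact_mod_cast hN5)
  have hC0 : (0 : ℝ) ≤ C := Nat.cast_nonneg C
  have hIIN := hII N hN1 V hAd r
  have hIN := hI N hN3 V hAd r (Or.inl hr)
  have hVN := hV N hN2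
  set Q : ℝ := QV N with hQ
  set L : ℝ := Real.log N with hL
  clear_value L
  have hL5 : 5 ≤ L := by linarith
  have hL0 : 0 < L := by linarith
  have hL1 : 1 ≤ L := by linarith
  set R : ℕ := ⌈L ^ B⌉₊ with hRdef
  have hR1 : L ^ B ≤ R := Nat.le_ceil _
  have hR3 : 1 ≤ R := by
    have : (0 : ℝ) < R := lt_of_lt_of_le (pow_pos hL0 B) hR1
    exact_mod_cast this
  have hR2 : (R : ℝ) ≤ L ^ (B + 1) := by
    have e1 : (R : ℝ) < L ^ B + 1 := Nat.ceil_lt_add_one (pow_nonneg hL0.le B)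
    have e2 : 1 ≤ L ^ B := one_le_pow₀ hL1
    rw [pow_succ]
    nlinarith
  clear_value R
  -- the number of dyadic blocks
  set I : ℕ := Nat.log 2 (30 * N) + 1 with hIdef
  have hIb : 30 * N ≤ 2 ^ I := (Nat.lt_pow_succ_log_self (by norm_num) (30 * N)).le
  have hIL : (I : ℝ) ≤ L ^ 2 := by
    have e1 : ((Nat.log 2 (30 * N) : ℕ) : ℝ) * Real.log 2 ≤ Real.log ((30 * N : ℕ) : ℝ) := by
      have e2 : 2 ^ Nat.log 2 (30 * N) ≤ 30 * N := Nat.pow_log_le_self 2 (by omega)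
      have e3 : ((2 : ℝ) ^ Nat.log 2 (30 * N)) ≤ ((30 * N : ℕ) : ℝ) := by exact_mod_cast e2
      have e4 := Real.log_le_log (by positivity) e3
      rwa [Real.log_pow] at e4
    have e5 : Real.log ((30 * N : ℕ) : ℝ) = Real.log 30 + L := by
      push_cast
      rw [Real.log_mul (by norm_num) hN0.ne', hL]
    have e6 : Real.log 30 ≤ 4 := by
      rw [Real.log_le_iff_le_exp (by norm_num)]
      have h27 : (2.7182818283 : ℝ) < Real.exp 1 := Real.exp_one_gt_d9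
      have e8 : Real.exp 4 = Real.exp 1 ^ 4 := by
        rw [← Real.exp_nat_mul]; norm_num
      rw [e8]
      calc (30 : ℝ) ≤ 2.7 ^ 4 := by norm_num
        _ ≤ Real.exp 1 ^ 4 := pow_le_pow_left₀ (by norm_num) (by linarith) 4
    have e7 : (0.6931471803 : ℝ) < Real.log 2 := Real.log_two_gt_d9
    rw [e5] at e1
    have hn : (0 : ℝ) ≤ ((Nat.log 2 (30 * N) : ℕ) : ℝ) := Nat.cast_nonneg _
    have hIc : (I : ℝ) = ((Nat.log 2 (30 * N) : ℕ) : ℝ) + 1 := by
      rw [hIdef]; push_cast; ring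
    rw [hIc]
    nlinarith
  clear_value I
  -- decomposition
  have hkey : ∀ m ∈ Mo Q, ∑ j ∈ Z3 N, mnf C N j * fV N V j * KK R (30 * m) (r m) j =
      ∑ j ∈ Z3 N, tyI N (UN C N) 1 (fun d => ((moebius d : ℤ) : ℝ)) j * fV N V j * KK R (30 * m) (r m) j -
      ∑ j ∈ Z3 N, tyI N (UN C N) 0 (fun d => eU (UN C N) d) j * fV N V j * KK R (30 * m) (r m) j +
      ∑ i ∈ range I, ∑ j ∈ Z3 N, tII C N j * fV N V j * kp (2 ^ i * R) (30 * m) (r m) j := by
    intro m hm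
    unfold Mo at hm
    rw [mem_filter, mem_Icc] at hm
    obtain ⟨⟨hm1, hm2⟩, hm3⟩ := hm
    have hmN : m ≤ N := by
      have e1 : (m : ℝ) ≤ Q := (Nat.le_floor_iff' (by omega)).1 hm2
      have e2 : Q ≤ N := by
        rw [hQ]
        calc (N : ℝ) ^ (104 / 125 : ℝ) ≤ (N : ℝ) ^ (1 : ℝ) :=
              Real.rpow_le_rpow_of_exponent_le (by exact_mod_cast hN4) (by norm_num)
          _ = N := Real.rpow_one _
      exact_mod_cast e1.trans e2
    have hcop := LCE_coprime hr hm1 hm3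
    rw [Finset.sum_comm, ← Finset.sum_sub_distrib, ← Finset.sum_add_distrib]
    refine Finset.sum_congr rfl fun j hj => ?_
    by_cases hf : fV N V j = 0
    · simp only [hf, mul_zero, zero_mul, Finset.sum_const_zero, sub_zero, add_zero]
    have hj3 : N ^ 3 < j := ((hWN.2 j).2.2 hf).1
    have hj64 : j ≤ 64 * N ^ 3 := by
      unfold Z3 at hj
      exact (Finset.mem_Ioc.1 hj).2
    rw [hVN j hj3 hj64, ← Finset.mul_sum, ← h4 (30 * m) (r m) R I j (by omega) hcop hR3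
      (le_trans (Nat.mul_le_mul_left 30 hmN) (hIb.trans (Nat.le_mul_of_pos_right _ hR3))), tI]
    ring
  have hξ1 : ∀ d : ℕ, d ≤ UN C N → |((moebius d : ℤ) : ℝ)| ≤ L ^ 2 := by
    intro d _
    have e1 : |(moebius d : ℤ)| ≤ 1 := abs_moebius_le_one
    have e2 : |((moebius d : ℤ) : ℝ)| ≤ 1 := by exact_mod_cast e1
    nlinarith
  have hξ2 : ∀ d : ℕ, d ≤ UN C N → |eU (UN C N) d| ≤ L ^ 2 := by
    intro d hd
    rcases Nat.eq_zero_or_pos d with h0 | h0
    · rw [h0, ArithmeticFunction.map_zero, abs_zero]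
      positivity
    · refine (hv1 (UN C N) d h0).trans ?_
      have hd' : (d : ℝ) ≤ N * L ^ C := by
        unfold UN at hd
        rw [← hL] at hd
        exact (Nat.le_floor_iff' (by omega)).1 hd
      have hd0 : (0 : ℝ) < d := by exact_mod_cast h0
      have e1 : Real.log d ≤ L + C * Real.log L := by
        have e2 := Real.log_le_log hd0 hd'
        rw [Real.log_mul hN0.ne' (pow_pos hL0 C).ne', Real.log_pow, ← hL] at e2
        exact e2
      have e3 : Real.log L ≤ L := (Real.log_le_sub_one_of_pos hL0).trans (by linarith)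
      have e4 : (C : ℝ) * Real.log L ≤ C * L := mul_le_mul_of_nonneg_left e3 hC0
      nlinarith
  have hA1 := hIN R hR3 hR2 1 (fun d => ((moebius d : ℤ) : ℝ)) (le_refl 1) hξ1
  have hA0 := hIN R hR3 hR2 0 (fun d => eU (UN C N) d) (Nat.zero_le 1) hξ2
  have hAI : ∀ i ∈ range I, ∑ m ∈ Mo Q, |∑ j ∈ Z3 N, tII C N j * fV N V j * kp (2 ^ i * R) (30 * m) (r m) j| ≤
      #V * (N : ℝ) ^ 2 / L ^ (A + 3) := by
    intro i _
    refine hIIN (2 ^ i * R) (hR1.trans ?_)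
    have : R ≤ 2 ^ i * R := Nat.le_mul_of_pos_left _ (by positivity)
    exact_mod_cast this
  calc ∑ m ∈ Mo Q, |∑ j ∈ Z3 N, mnf C N j * fV N V j * KK R (30 * m) (r m) j|
      ≤ ∑ m ∈ Mo Q, (|∑ j ∈ Z3 N, tyI N (UN C N) 1 (fun d => ((moebius d : ℤ) : ℝ)) j * fV N V j *
            KK R (30 * m) (r m) j| +
          |∑ j ∈ Z3 N, tyI N (UN C N) 0 (fun d => eU (UN C N) d) j * fV N V j * KK R (30 * m) (r m) j| +
          ∑ i ∈ range I, |∑ j ∈ Z3 N, tII C N j * fV N V j * kp (2 ^ i * R) (30 * m) (r m) j|) := by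
        refine Finset.sum_le_sum fun m hm => ?_
        rw [hkey m hm]
        refine (abs_add_le _ _).trans (add_le_add (abs_sub _ _) (Finset.abs_sum_le_sum_abs _ _))
    _ = ∑ m ∈ Mo Q, |∑ j ∈ Z3 N, tyI N (UN C N) 1 (fun d => ((moebius d : ℤ) : ℝ)) j * fV N V j *
            KK R (30 * m) (r m) j| +
          ∑ m ∈ Mo Q, |∑ j ∈ Z3 N, tyI N (UN C N) 0 (fun d => eU (UN C N) d) j * fV N V j *
            KK R (30 * m) (r m) j| +
          ∑ i ∈ range I, ∑ m ∈ Mo Q, |∑ j ∈ Z3 N, tII C N j * fV N V j * kp (2 ^ i * R) (30 * m) (r m) j| := by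
        rw [Finset.sum_add_distrib, Finset.sum_add_distrib, Finset.sum_comm (s := Mo Q) (t := range I)]
    _ ≤ #V * (N : ℝ) ^ 2 / L ^ (A + 1) + #V * (N : ℝ) ^ 2 / L ^ (A + 1) + ∑ i ∈ range I, #V * (N : ℝ) ^ 2 / L ^ (A + 3) :=
        add_le_add (add_le_add hA1 hA0) (Finset.sum_le_sum hAI)
    _ = 2 * (#V * (N : ℝ) ^ 2 / L ^ (A + 1)) + I * (#V * (N : ℝ) ^ 2 / L ^ (A + 3)) := by
        rw [Finset.sum_const, card_range, nsmul_eq_mul]
        ring
    _ ≤ 2 * (#V * (N : ℝ) ^ 2 / L ^ (A + 1)) + L ^ 2 * (#V * (N : ℝ) ^ 2 / L ^ (A + 3)) :=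
        add_le_add_right (mul_le_mul_of_nonneg_right hIL (by positivity)) _
    _ = 3 * (#V * (N : ℝ) ^ 2 / L ^ (A + 1)) := by
        have : L ^ (A + 3) = L ^ (A + 1) * L ^ 2 := by ring
        rw [this]
        field_simp
        ring
    _ ≤ #V * (N : ℝ) ^ 2 / L ^ A := by
        have : L ^ (A + 1) = L ^ A * L := by ring
        rw [this, ← div_div, ← mul_div_assoc, div_le_iff₀ hL0]
        have : 0 ≤ #V * (N : ℝ) ^ 2 / L ^ A := by positivity
        nlinarith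

end Pool.Agent.XE
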